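import Pool.Agent.helper55.GL.Spec

set_option autoImplicit false

namespace Pool.Agent.GL

open SimpleGraph

theorem TRV (hBAS : BAS_stmt) : TRV_stmt := by
  classical
  intro V _ H c hc hone
  refine ⟨0, Fintype.card V, fun n hn => ?_⟩
  rw [zero_mul, (hBAS V H c).1]
  intro B hB
  rw [Nat.le_zero, Finset.card_eq_zero]
  by_contra hne
  apply hB
  obtain ⟨⟨u, v⟩, huv⟩ := Finset.nonempty_iff_ne_empty.2 hne
  obtain ⟨e⟩ : Nonempty (V ↪ Fin n) :=
    Function.Embedding.nonempty_of_card_le (by rwa [Fintype.card_fin])
  have key : ∀ a b : V, H.Adj a b → c a = true → c b = false → Cp H c Set.univ B := by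
    intro a b hab ha hb
    refine ⟨fun x => if c x = true then Equiv.swap (e a) u (e x) else Equiv.swap (e b) v (e x),
      ?_, ?_⟩
    · intro x _ y _ hxy h
      by_cases hx : c x = true
      · have hy : c y = true := by rw [← hxy]; exact hx
        simp only [hx, hy, if_true] at h
        exact e.injective ((Equiv.swap (e a) u).injective h)
      · have hy : ¬ c y = true := by rw [← hxy]; exact hx
        simp only [if_neg hx, if_neg hy] at h
        exact e.injective ((Equiv.swap (e b) v).injective h)
    · intro x _ y _ hxy hx hy
      have h1 := hone s(x, y) hxy s(a, b) hab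
      rw [Sym2.eq_iff] at h1
      rcases h1 with ⟨h2, h3⟩ | ⟨h2, h3⟩
      · subst h2; subst h3
        simp only [hx, hy, if_true]
        rw [if_neg (by simp), Equiv.swap_apply_left, Equiv.swap_apply_left]
        exact huv
      · exfalso
        rw [h2, hb] at hx
        exact Bool.noConfusion hx
  by_cases hE : ∃ a b : V, H.Adj a b
  · obtain ⟨a, b, hab⟩ := hE
    have h1 := hc a b hab
    rcases Bool.eq_false_or_eq_true (c a) with h | h
    · rcases Bool.eq_false_or_eq_true (c b) with h' | h'
      · exact absurd (h.trans h'.symm) h1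
      · exact key a b hab h h'
    · rcases Bool.eq_false_or_eq_true (c b) with h' | h'
      · exact key b a hab.symm h' h
      · exact absurd (h.trans h'.symm) h1
  · push Not at hE
    refine ⟨e, fun x _ y _ _ h => e.injective h, fun x _ y _ hxy => absurd hxy (hE x y)⟩

end Pool.Agent.GL
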